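import Pool.Agent.Q120.NB.Stm

/-!
# Project NB of helper120: integrability of the integrand of the norm
-/

set_option autoImplicit false

namespace Pool.Agent.Q65.NB

open Complex MeasureTheory Filter Topology Set
open Pool.Agent.Q120.NB

theorem eyR_eq (a : ℝ →₀ ℂ) (y : ℝ) : eyR a y = (if 1 ≤ y then 1 else 0) -
    ∑ θ ∈ a.support, a θ * ((Int.fract (θ * y) : ℝ) : ℂ) := rfl

theorem eyR_meas (a : ℝ →₀ ℂ) : Measurable (eyR a) := by
  have h1 : eyR a = fun y => (if 1 ≤ y then 1 else 0) -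
    ∑ θ ∈ a.support, a θ * ((Int.fract (θ * y) : ℝ) : ℂ) := rfl
  rw [h1]
  refine Measurable.sub ?_ (Finset.measurable_fun_sum _ fun θ _ => ?_)
  · exact Measurable.ite measurableSet_Ici measurable_const measurable_const
  · exact (Complex.measurable_ofReal.comp
      (measurable_fract.comp (measurable_const.mul measurable_id))).const_mul _

theorem eyR_small (a : ℝ →₀ ℂ) (ha : ∀ θ ∈ a.support, 0 < θ ∧ θ ≤ 1) (y : ℝ) (hy0 : 0 < y)
    (hy1 : y < 1) : ‖eyR a y‖ = y * ‖∑ θ ∈ a.support, a θ * (θ : ℂ)‖ := by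
  have h1 : eyR a y = -((y : ℂ) * ∑ θ ∈ a.support, a θ * (θ : ℂ)) := by
    rw [eyR_eq, if_neg (not_le.2 hy1), zero_sub, Finset.mul_sum]
    congr 1
    refine Finset.sum_congr rfl fun θ hθ => ?_
    have h2 := ha θ hθ
    have h3 : Int.fract (θ * y) = θ * y := by
      rw [Int.fract_eq_self]
      constructor
      · have := h2.1
        positivity
      · nlinarith
    rw [h3]
    push_cast
    ring
  rw [h1, norm_neg, norm_mul, Complex.norm_real, Real.norm_eq_abs, abs_of_pos hy0]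

theorem eyR_bdd (a : ℝ →₀ ℂ) (y : ℝ) : ‖eyR a y‖ ≤ 1 + ∑ θ ∈ a.support, ‖a θ‖ := by
  rw [eyR_eq]
  refine (norm_sub_le _ _).trans (add_le_add ?_ ?_)
  · split_ifs <;> simp
  · refine (norm_sum_le _ _).trans (Finset.sum_le_sum fun θ _ => ?_)
    rw [norm_mul, Complex.norm_real, Real.norm_eq_abs, abs_of_nonneg (Int.fract_nonneg _)]
    exact mul_le_of_le_one_right (norm_nonneg _) (Int.fract_lt_one _).le

theorem t_INT : J_INT := by
  intro p σ hp hσ0 hσ1 a ha
  have hp0 : 0 < p := by linarith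
  refine ⟨eyR_meas a, ?_⟩
  have hm : Measurable fun y : ℝ => ‖eyR a y‖ ^ p * y ^ (-(p * σ) - 1) :=
    ((eyR_meas a).norm.pow_const p).mul (measurable_id.pow_const _)
  have hun : Ioi (0 : ℝ) = Ioo 0 1 ∪ Ici 1 := (Ioo_union_Ici_eq_Ioi one_pos).symm
  rw [hun]
  refine IntegrableOn.union ?_ ?_
  · have h1 : IntegrableOn (fun y : ℝ => ‖∑ θ ∈ a.support, a θ * (θ : ℂ)‖ ^ p *
        y ^ (p * (1 - σ) - 1)) (Ioo 0 1) :=
      ((intervalIntegral.integrableOn_Ioo_rpow_iff one_pos).2 (by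
        have : 0 < p * (1 - σ) := mul_pos hp0 (by linarith)
        linarith)).const_mul _
    refine h1.congr_fun (fun y hy => ?_) measurableSet_Ioo
    show ‖∑ θ ∈ a.support, a θ * (θ : ℂ)‖ ^ p * y ^ (p * (1 - σ) - 1) =
      ‖eyR a y‖ ^ p * y ^ (-(p * σ) - 1)
    rw [eyR_small a ha y hy.1 hy.2, Real.mul_rpow hy.1.le (norm_nonneg _)]
    have h2 : y ^ (p * (1 - σ) - 1) = y ^ p * y ^ (-(p * σ) - 1) := by
      rw [← Real.rpow_add hy.1]
      congr 1
      ring
    rw [h2]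
    ring
  · have h1 : IntegrableOn (fun y : ℝ => (1 + ∑ θ ∈ a.support, ‖a θ‖) ^ p *
        y ^ (-(p * σ) - 1)) (Ici 1) := by
      rw [integrableOn_Ici_iff_integrableOn_Ioi]
      exact (integrableOn_Ioi_rpow_of_lt (by
        have : 0 < p * σ := mul_pos hp0 hσ0
        linarith) one_pos).const_mul _
    refine Integrable.mono' h1 hm.aestronglyMeasurable ?_
    refine (ae_restrict_iff' measurableSet_Ici).2 (Filter.Eventually.of_forall fun y hy => ?_)
    have hy0 : (0 : ℝ) < y := lt_of_lt_of_le one_pos hy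
    rw [Real.norm_eq_abs, abs_of_nonneg (by positivity)]
    exact mul_le_mul_of_nonneg_right (Real.rpow_le_rpow (norm_nonneg _) (eyR_bdd a y) hp0.le)
      (Real.rpow_nonneg hy0.le _)

/-- the pairing with a kernel which is orthogonal to the dilations -/
theorem pair_eq (a : ℝ →₀ ℂ) (lam : ℝ) (ha : ∀ θ ∈ a.support, lam ≤ θ ∧ θ ≤ 1) (K : ℝ → ℂ)
    (hKi : IntegrableOn K (Ioi 0))
    (hK : ∀ θ : ℝ, lam ≤ θ → θ ≤ 1 → ∫ y in Ioi (0 : ℝ), ((Int.fract (θ * y) : ℝ) : ℂ) * K y = 0) :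
    IntegrableOn (fun y => eyR a y * K y) (Ioi 0) ∧
      ∫ y in Ioi (0 : ℝ), eyR a y * K y = ∫ y in Ioi (1 : ℝ), K y := by
  have hi1 : IntegrableOn (fun y => (if 1 ≤ y then (1 : ℂ) else 0) * K y) (Ioi 0) := by
    refine hKi.bdd_mul (c := 1) (Measurable.ite measurableSet_Ici measurable_const
      measurable_const).aestronglyMeasurable ?_
    refine Filter.Eventually.of_forall fun y => ?_
    split_ifs <;> simp
  have hi2 : ∀ θ : ℝ, IntegrableOn (fun y => ((Int.fract (θ * y) : ℝ) : ℂ) * K y) (Ioi 0) := by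
    intro θ
    refine hKi.bdd_mul (c := 1) (Complex.measurable_ofReal.comp
      (measurable_fract.comp (measurable_const.mul measurable_id))).aestronglyMeasurable ?_
    refine Filter.Eventually.of_forall fun y => ?_
    show ‖((Int.fract (θ * y) : ℝ) : ℂ)‖ ≤ 1
    rw [Complex.norm_real, Real.norm_eq_abs, abs_of_nonneg (Int.fract_nonneg _)]
    exact (Int.fract_lt_one _).le
  have hi3 : IntegrableOn (fun y => ∑ θ ∈ a.support, a θ * (((Int.fract (θ * y) : ℝ) : ℂ) * K y))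
      (Ioi 0) := integrable_finsetSum _ fun θ _ => (hi2 θ).const_mul (a θ)
  have he : ∀ y, eyR a y * K y = (if 1 ≤ y then (1 : ℂ) else 0) * K y -
      ∑ θ ∈ a.support, a θ * (((Int.fract (θ * y) : ℝ) : ℂ) * K y) := by
    intro y
    rw [eyR_eq, sub_mul, Finset.sum_mul]
    congr 1
    refine Finset.sum_congr rfl fun θ _ => ?_
    ring
  constructor
  · exact (hi1.sub hi3).congr (Filter.Eventually.of_forall fun y => (he y).symm)
  · have h1 : ∫ y in Ioi (0 : ℝ), eyR a y * K y = ∫ y in Ioi (0 : ℝ),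
        ((if 1 ≤ y then (1 : ℂ) else 0) * K y -
          ∑ θ ∈ a.support, a θ * (((Int.fract (θ * y) : ℝ) : ℂ) * K y)) :=
      integral_congr_ae (Filter.Eventually.of_forall fun y => he y)
    rw [h1, integral_sub hi1 hi3, integral_finsetSum _ fun θ _ => (hi2 θ).const_mul (a θ)]
    have h2 : ∑ θ ∈ a.support, ∫ y in Ioi (0 : ℝ),
        a θ * (((Int.fract (θ * y) : ℝ) : ℂ) * K y) = 0 := by
      refine Finset.sum_eq_zero fun θ hθ => ?_
      rw [integral_const_mul, hK θ (ha θ hθ).1 (ha θ hθ).2, mul_zero]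
    rw [h2, sub_zero]
    have h3 : (fun y : ℝ => (if 1 ≤ y then (1 : ℂ) else 0) * K y) = (Ici 1).indicator K := by
      funext y
      rw [indicator_apply]
      simp only [mem_Ici]
      split_ifs <;> simp
    have h4 : Ioi (0 : ℝ) ∩ Ici 1 = Ici 1 :=
      inter_eq_right.2 fun y (hy : (1 : ℝ) ≤ y) => lt_of_lt_of_le one_pos hy
    rw [h3, setIntegral_indicator measurableSet_Ici, h4, integral_Ici_eq_integral_Ioi]

end Pool.Agent.Q65.NB

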