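import Pool.Agent.Q65.NB.Hol

/-!
# Project NB of helper120: job LB, the lower bound for every zero
-/

set_option autoImplicit false

namespace Pool.Agent.Q65.NB

open Complex MeasureTheory Filter Topology Set
open Pool.Agent.Q120.NB

theorem ny_nonneg (p σ : ℝ) (u : ℝ → ℂ) : 0 ≤ ny p σ u := by
  unfold ny
  refine Real.rpow_nonneg ?_ _
  refine setIntegral_nonneg measurableSet_Ioi fun y hy => ?_
  exact mul_nonneg (by positivity) (Real.rpow_nonneg (le_of_lt hy) _)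

theorem sup_pair (σ S : ℝ) (u K : ℝ → ℂ) (hu : Measurable u) (hK : Measurable K)
    (hui : IntegrableOn (fun y : ℝ => ‖u y‖ ^ (1 : ℝ) * y ^ (-(1 * σ) - 1)) (Ioi 0))
    (hS : ∀ y : ℝ, 0 < y → ‖K y‖ * y ^ (σ + 1) ≤ S) :
    ‖∫ y in Ioi (0 : ℝ), u y * K y‖ ≤ S * ny 1 σ u := by
  have h1 : ∀ y ∈ Ioi (0 : ℝ), ‖u y * K y‖ ≤ S * (‖u y‖ ^ (1 : ℝ) * y ^ (-(1 * σ) - 1)) := by
    intro y hy
    have hy0 : (0 : ℝ) < y := hy
    have h3 : y ^ (-(1 * σ) - 1) * y ^ (σ + 1) = 1 := by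
      rw [← Real.rpow_add hy0]
      have : -(1 * σ) - 1 + (σ + 1) = 0 := by ring
      rw [this, Real.rpow_zero]
    have h4 : 0 ≤ ‖u y‖ * y ^ (-(1 * σ) - 1) :=
      mul_nonneg (norm_nonneg _) (Real.rpow_nonneg hy0.le _)
    rw [norm_mul, Real.rpow_one]
    calc ‖u y‖ * ‖K y‖ = (‖u y‖ * y ^ (-(1 * σ) - 1)) * (‖K y‖ * y ^ (σ + 1)) := by
          calc ‖u y‖ * ‖K y‖ = ‖u y‖ * ‖K y‖ * (y ^ (-(1 * σ) - 1) * y ^ (σ + 1)) := by
                rw [h3, mul_one]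
            _ = _ := by ring
      _ ≤ (‖u y‖ * y ^ (-(1 * σ) - 1)) * S := mul_le_mul_of_nonneg_left (hS y hy0) h4
      _ = S * (‖u y‖ * y ^ (-(1 * σ) - 1)) := by ring
  obtain ⟨-, h2⟩ := piece (Ioi 0) measurableSet_Ioi (fun y => ‖u y * K y‖)
    (fun y => S * (‖u y‖ ^ (1 : ℝ) * y ^ (-(1 * σ) - 1))) (hu.mul hK).norm
    (fun y _ => norm_nonneg _) (hui.const_mul S) h1
  refine (norm_integral_le_integral_norm _).trans (h2.trans (le_of_eq ?_))
  rw [integral_const_mul]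
  unfold ny
  rw [one_div, inv_one, Real.rpow_one]

theorem core (p σ β C : ℝ) (hp : 1 ≤ p) (hσ0 : 0 < σ) (hσ1 : σ < 1) (hβ0 : 0 < β)
    (hC : 0 < C) (Φ : ℝ → ℝ) (hΦ : ∀ lam : ℝ, 0 < lam → lam ≤ 1 / 2 → 0 < Φ lam)
    (h1 : p = 1 → ∀ lam : ℝ, 0 < lam → lam ≤ 1 / 2 → 1 ≤ Φ lam ∧ (1 / lam) ^ (σ - β) ≤ Φ lam)
    (hM : ∀ q : ℝ, p.HolderConjugate q → ∃ M : ℝ, 0 < M ∧ ∀ lam : ℝ, 0 < lam → lam ≤ 1 / 2 →
      1 + (∫ y in Ioc (1 : ℝ) (1 / lam), y ^ (q * (σ - β) - 1)) +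
        (1 / lam) ^ (q * (σ - β)) / (q * (1 + β - σ)) ≤ M * Φ lam ^ q) :
    ∃ D : ℝ, 0 < D ∧ ∀ lam : ℝ, 0 < lam → lam ≤ 1 / 2 → ∀ K : ℝ → ℂ, KB β C lam K →
      ∀ u : ℝ → ℂ, Measurable u →
      IntegrableOn (fun y : ℝ => ‖u y‖ ^ p * y ^ (-(p * σ) - 1)) (Ioi 0) →
      ‖∫ y in Ioi (0 : ℝ), u y * K y‖ ≤ D * Φ lam * ny p σ u := by
  rcases hp.eq_or_lt with hp1 | hp1
  · -- p = 1
    refine ⟨C, hC, ?_⟩
    intro lam hl0 hl1 K hK u hu hui
    obtain ⟨g1, g2⟩ := h1 hp1.symm lam hl0 hl1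
    have hL : (1 : ℝ) ≤ 1 / lam := by
      rw [le_div_iff₀ hl0]
      linarith
    have hL0 : (0 : ℝ) < 1 / lam := by positivity
    rw [← hp1] at hui ⊢
    refine sup_pair σ (C * Φ lam) u K hu hK.meas hui fun y hy => ?_
    rcases le_total y 1 with hy1 | hy1
    · have h3 : y ^ (σ + 1) ≤ 1 := Real.rpow_le_one hy.le hy1 (by linarith)
      exact mul_le_mul (hK.b1 y hy hy1) (h3.trans g1) (Real.rpow_nonneg hy.le _) hC.le
    · rcases le_total y (1 / lam) with hy2 | hy2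
      · have h3 := hK.b2 y hy1 hy2
        have h4 : C * y ^ (-β - 1) * y ^ (σ + 1) = C * y ^ (σ - β) := by
          rw [mul_assoc, ← Real.rpow_add hy]
          congr 2
          ring
        have h5 : y ^ (σ - β) ≤ Φ lam := by
          rcases le_total 0 (σ - β) with h | h
          · exact (Real.rpow_le_rpow hy.le hy2 h).trans g2
          · exact (Real.rpow_le_one_of_one_le_of_nonpos hy1 h).trans g1
        calc ‖K y‖ * y ^ (σ + 1) ≤ C * y ^ (-β - 1) * y ^ (σ + 1) :=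
              mul_le_mul_of_nonneg_right h3 (Real.rpow_nonneg hy.le _)
          _ = C * y ^ (σ - β) := h4
          _ ≤ C * Φ lam := mul_le_mul_of_nonneg_left h5 hC.le
      · have h3 := hK.b3 y hy2
        have h4 : C * lam⁻¹ * y ^ (-β - 2) * y ^ (σ + 1) = C * lam⁻¹ * y ^ (σ - β - 1) := by
          rw [mul_assoc, ← Real.rpow_add hy]
          congr 2
          ring
        have h5 : y ^ (σ - β - 1) ≤ (1 / lam) ^ (σ - β - 1) :=
          Real.rpow_le_rpow_of_nonpos hL0 hy2 (by linarith)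
        have h6 : C * lam⁻¹ * (1 / lam) ^ (σ - β - 1) = C * (1 / lam) ^ (σ - β) := by
          rw [Real.rpow_sub_one hL0.ne', mul_assoc]
          congr 1
          field_simp
        calc ‖K y‖ * y ^ (σ + 1) ≤ C * lam⁻¹ * y ^ (-β - 2) * y ^ (σ + 1) :=
              mul_le_mul_of_nonneg_right h3 (Real.rpow_nonneg hy.le _)
          _ = C * lam⁻¹ * y ^ (σ - β - 1) := h4
          _ ≤ C * lam⁻¹ * (1 / lam) ^ (σ - β - 1) := mul_le_mul_of_nonneg_left h5 (by positivity)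
          _ = C * (1 / lam) ^ (σ - β) := h6
          _ ≤ C * Φ lam := mul_le_mul_of_nonneg_left g2 hC.le
  · -- p > 1
    have hpq : p.HolderConjugate p.conjExponent := Real.HolderConjugate.conjExponent hp1
    obtain ⟨M, hM0, hM1⟩ := hM _ hpq
    set q := p.conjExponent with hq
    have hq0 : 0 < q := hpq.symm.pos
    refine ⟨C * M ^ (1 / q), by positivity, ?_⟩
    intro lam hl0 hl1 K hK u hu hui
    have hΦ0 := hΦ lam hl0 hl1
    obtain ⟨k1, k2⟩ := kbd p q σ β C lam hpq hσ0 hσ1 hβ0 hC hl0 (by linarith) K hK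
    have h2 := hoel p q σ hpq u K hu hK.meas hui k1
    have h3 : ∫ y in Ioi (0 : ℝ), ‖K y‖ ^ q * y ^ (q * (σ + 1 / p)) ≤
        C ^ q * (M * Φ lam ^ q) :=
      k2.trans (mul_le_mul_of_nonneg_left (hM1 lam hl0 hl1) (by positivity))
    have h4 : 0 ≤ ∫ y in Ioi (0 : ℝ), ‖K y‖ ^ q * y ^ (q * (σ + 1 / p)) :=
      setIntegral_nonneg measurableSet_Ioi fun y hy =>
        mul_nonneg (by positivity) (Real.rpow_nonneg (le_of_lt hy) _)
    have h5 := Real.rpow_le_rpow h4 h3 (one_div_nonneg.2 hq0.le)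
    have h6 : (C ^ q * (M * Φ lam ^ q)) ^ (1 / q) = C * M ^ (1 / q) * Φ lam := by
      rw [Real.mul_rpow (by positivity) (by positivity), Real.mul_rpow hM0.le (by positivity),
        ← Real.rpow_mul hC.le, ← Real.rpow_mul hΦ0.le, mul_one_div, div_self hq0.ne',
        Real.rpow_one, Real.rpow_one]
      ring
    rw [h6] at h5
    calc ‖∫ y in Ioi (0 : ℝ), u y * K y‖ ≤ ny p σ u *
          (∫ y in Ioi (0 : ℝ), ‖K y‖ ^ q * y ^ (q * (σ + 1 / p))) ^ (1 / q) := h2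
      _ ≤ ny p σ u * (C * M ^ (1 / q) * Φ lam) := mul_le_mul_of_nonneg_left h5 (ny_nonneg _ _ _)
      _ = C * M ^ (1 / q) * Φ lam * ny p σ u := by ring

/-- from the upper bound of the pairing to the lower bound of the norm -/
theorem lower (hTR : J_TR) (p σ : ℝ) (hp : 1 ≤ p) (hσ0 : 0 < σ) (hσ1 : σ < 1) (ρ : ℂ)
    (hρ : riemannZeta ρ = 0) (hρ0 : 0 < ρ.re) (hρ1 : ρ.re < 1)
    (Φ : ℝ → ℝ) (B : ℝ) (hΦ : ∀ lam : ℝ, 0 < lam → lam ≤ 1 / 2 → 0 < Φ lam ∧ (Φ lam)⁻¹ ≤ B)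
    (h1 : p = 1 → ∀ lam : ℝ, 0 < lam → lam ≤ 1 / 2 →
      1 ≤ Φ lam ∧ (1 / lam) ^ (σ - ρ.re) ≤ Φ lam)
    (hM : ∀ q : ℝ, p.HolderConjugate q → ∃ M : ℝ, 0 < M ∧ ∀ lam : ℝ, 0 < lam → lam ≤ 1 / 2 →
      1 + (∫ y in Ioc (1 : ℝ) (1 / lam), y ^ (q * (σ - ρ.re) - 1)) +
        (1 / lam) ^ (q * (σ - ρ.re)) / (q * (1 + ρ.re - σ)) ≤ M * Φ lam ^ q) :
    ∃ c : ℝ, 0 < c ∧ ∀ lam : ℝ, 0 < lam → lam ≤ 1 / 2 → ∀ a : ℝ →₀ ℂ,
      (∀ θ ∈ a.support, lam ≤ θ ∧ θ ≤ 1) → c * (Φ lam)⁻¹ ≤ ny p σ (eyR a) := by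
  obtain ⟨C, hC, hT⟩ := hTR ρ hρ hρ0 hρ1
  obtain ⟨D, hD, hcore⟩ := core p σ ρ.re C hp hσ0 hσ1 hρ0 hC Φ (fun lam a b => (hΦ lam a b).1)
    h1 hM
  have hρn : 0 < ‖ρ‖ := by
    refine norm_pos_iff.2 fun h => ?_
    rw [h] at hρ0
    simp at hρ0
  set lam0 : ℝ := min (1 / 2) (1 / (2 * ‖ρ‖ * C)) with hlam0
  have hl00 : 0 < lam0 := lt_min (by norm_num) (by positivity)
  have hl01 : lam0 ≤ 1 / 2 := min_le_left _ _
  have hl02 : C * lam0 ≤ 1 / (2 * ‖ρ‖) := by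
    have h2 : lam0 ≤ 1 / (2 * ‖ρ‖ * C) := min_le_right _ _
    calc C * lam0 ≤ C * (1 / (2 * ‖ρ‖ * C)) := mul_le_mul_of_nonneg_left h2 hC.le
      _ = 1 / (2 * ‖ρ‖) := by field_simp
  set c : ℝ := 1 / (2 * ‖ρ‖ * D) with hc
  have hc0 : 0 < c := by positivity
  have hmain : ∀ lam : ℝ, 0 < lam → lam ≤ lam0 → ∀ a : ℝ →₀ ℂ,
      (∀ θ ∈ a.support, lam ≤ θ ∧ θ ≤ 1) → c * (Φ lam)⁻¹ ≤ ny p σ (eyR a) := by
    intro lam hl0 hl1 a ha
    have hl2 : lam ≤ 1 / 2 := hl1.trans hl01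
    obtain ⟨K, hKm, hKi, hKo, hK1, kb1, kb2, kb3⟩ := hT lam hl0 (by linarith)
    have hK : KB ρ.re C lam K := ⟨hKm, kb1, kb2, kb3⟩
    have ha' : ∀ θ ∈ a.support, 0 < θ ∧ θ ≤ 1 := fun θ hθ =>
      ⟨hl0.trans_le (ha θ hθ).1, (ha θ hθ).2⟩
    obtain ⟨hum, hui⟩ := t_INT p σ hp hσ0 hσ1 a ha'
    have h2 := hcore lam hl0 hl2 K hK (eyR a) hum hui
    rw [(pair_eq a lam ha K hKi hKo).2] at h2
    have h3 : 1 / (2 * ‖ρ‖) ≤ ‖∫ y in Ioi (1 : ℝ), K y‖ := by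
      have h4 : ‖(1 : ℂ) / ρ‖ = 1 / ‖ρ‖ := by rw [norm_div, norm_one]
      have h5 : ‖(1 : ℂ) / ρ‖ ≤ ‖(∫ y in Ioi (1 : ℝ), K y)‖ +
          ‖(∫ y in Ioi (1 : ℝ), K y) - 1 / ρ‖ := by
        calc ‖(1 : ℂ) / ρ‖ = ‖(∫ y in Ioi (1 : ℝ), K y) -
              ((∫ y in Ioi (1 : ℝ), K y) - 1 / ρ)‖ := by
              congr 1
              ring
          _ ≤ _ := norm_sub_le _ _
      have h6 : C * lam ≤ 1 / (2 * ‖ρ‖) :=
        (mul_le_mul_of_nonneg_left hl1 hC.le).trans hl02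
      have h7 : 1 / ‖ρ‖ = 1 / (2 * ‖ρ‖) + 1 / (2 * ‖ρ‖) := by
        field_simp
        norm_num
      linarith
    have hΦ0 := (hΦ lam hl0 hl2).1
    have h8 : 1 / (2 * ‖ρ‖) ≤ D * Φ lam * ny p σ (eyR a) := h3.trans h2
    have h9 : c * (Φ lam)⁻¹ = 1 / (2 * ‖ρ‖) / (D * Φ lam) := by
      rw [hc]
      field_simp
    rw [h9, div_le_iff₀ (by positivity)]
    linarith
  -- extension to lam0 < lam ≤ 1/2
  have hB0 : 0 < B := lt_of_lt_of_le (inv_pos.2 (hΦ lam0 hl00 hl01).1) (hΦ lam0 hl00 hl01).2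
  have hP0 := (hΦ lam0 hl00 hl01).1
  refine ⟨min c (c * (Φ lam0)⁻¹ / B), lt_min hc0 (by positivity), ?_⟩
  intro lam hl0 hl1 a ha
  obtain ⟨hP, hPB⟩ := hΦ lam hl0 hl1
  rcases le_total lam lam0 with h | h
  · exact (mul_le_mul_of_nonneg_right (min_le_left _ _) (inv_pos.2 hP).le).trans
      (hmain lam hl0 h a ha)
  · have h2 := hmain lam0 hl00 le_rfl a fun θ hθ => ⟨h.trans (ha θ hθ).1, (ha θ hθ).2⟩
    have h3 : 0 ≤ c * (Φ lam0)⁻¹ / B := by positivity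
    calc min c (c * (Φ lam0)⁻¹ / B) * (Φ lam)⁻¹ ≤ (c * (Φ lam0)⁻¹ / B) * (Φ lam)⁻¹ :=
          mul_le_mul_of_nonneg_right (min_le_right _ _) (inv_pos.2 hP).le
      _ ≤ (c * (Φ lam0)⁻¹ / B) * B := mul_le_mul_of_nonneg_left hPB h3
      _ = c * (Φ lam0)⁻¹ := by field_simp
      _ ≤ _ := h2

theorem int_mid (r L : ℝ) (hr : r ≠ 0) (hL : 1 ≤ L) :
    ∫ y in Ioc (1 : ℝ) L, y ^ (r - 1) = (L ^ r - 1) / r := by
  rw [← intervalIntegral.integral_of_le hL, integral_rpow]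
  · rw [sub_add_cancel, Real.one_rpow]
  · refine Or.inr ⟨fun h => hr (by linarith), ?_⟩
    rw [uIcc_of_le hL]
    intro h
    linarith [h.1]

theorem int_mid0 (L : ℝ) (hL : 1 ≤ L) :
    ∫ y in Ioc (1 : ℝ) L, y ^ ((0 : ℝ) - 1) = Real.log L := by
  rw [← intervalIntegral.integral_of_le hL]
  have h1 : ∫ y in (1 : ℝ)..L, y ^ ((0 : ℝ) - 1) = ∫ y in (1 : ℝ)..L, y⁻¹ := by
    refine intervalIntegral.integral_congr fun y _ => ?_
    show y ^ ((0 : ℝ) - 1) = y⁻¹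
    rw [zero_sub, Real.rpow_neg_one]
  rw [h1, integral_inv_of_pos one_pos (by linarith), div_one]

theorem t_LB (hTR : J_TR) : J_LB := by
  intro p σ hp hσ0 hσ1 ρ hρ hρ0 hρ1
  have hd : 0 < 1 + ρ.re - σ := by linarith
  have hLL : ∀ lam : ℝ, 0 < lam → lam ≤ 1 / 2 → (2 : ℝ) ≤ 1 / lam := by
    intro lam h0 h1
    rw [le_div_iff₀ h0]
    linarith
  rcases lt_trichotomy ρ.re σ with h | h | h
  · -- case 1
    obtain ⟨c, hc, hb⟩ := lower hTR p σ hp hσ0 hσ1 ρ hρ hρ0 hρ1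
      (fun lam => (1 / lam) ^ (σ - ρ.re)) 1 (by
        intro lam h0 h1
        have h2 := hLL lam h0 h1
        refine ⟨Real.rpow_pos_of_pos (by linarith) _, ?_⟩
        exact inv_le_one_of_one_le₀ (Real.one_le_rpow (by linarith) (by linarith))) (by
        intro _ lam h0 h1
        have h2 := hLL lam h0 h1
        exact ⟨Real.one_le_rpow (by linarith) (by linarith), le_rfl⟩) (by
        intro q hpq
        have hq0 : 0 < q := hpq.symm.pos
        have hqd : 0 < q * (σ - ρ.re) := mul_pos hq0 (by linarith)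
        have hqe : 0 < q * (1 + ρ.re - σ) := mul_pos hq0 hd
        refine ⟨1 + 1 / (q * (σ - ρ.re)) + 1 / (q * (1 + ρ.re - σ)), by positivity, ?_⟩
        intro lam h0 h1
        have h2 := hLL lam h0 h1
        rw [int_mid _ _ hqd.ne' (by linarith), ← Real.rpow_mul (by linarith), mul_comm (σ - ρ.re) q]
        have h3 : (1 : ℝ) ≤ (1 / lam) ^ (q * (σ - ρ.re)) := Real.one_le_rpow (by linarith) hqd.le
        have h4 : ((1 / lam) ^ (q * (σ - ρ.re)) - 1) / (q * (σ - ρ.re)) ≤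
            1 / (q * (σ - ρ.re)) * (1 / lam) ^ (q * (σ - ρ.re)) := by
          rw [div_mul_eq_mul_div, one_mul]
          exact div_le_div_of_nonneg_right (by linarith) hqd.le
        have h5 : (1 / lam) ^ (q * (σ - ρ.re)) / (q * (1 + ρ.re - σ)) =
            1 / (q * (1 + ρ.re - σ)) * (1 / lam) ^ (q * (σ - ρ.re)) := by ring
        rw [h5]
        linarith)
    refine ⟨c, hc, fun lam h0 h1 a ha => ⟨fun _ => ?_, fun h' => absurd h' (by linarith),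
      fun h' => absurd h' (by linarith)⟩⟩
    have h2 := hb lam h0 h1 a ha
    have h3 : ((1 / lam) ^ (σ - ρ.re))⁻¹ = lam ^ (σ - ρ.re) := by
      rw [one_div, Real.inv_rpow h0.le, inv_inv]
    simpa only [h3] using h2
  · -- case 2
    have hσρ : σ - ρ.re = 0 := by linarith
    have hlog : ∀ lam : ℝ, 0 < lam → lam ≤ 1 / 2 → Real.log 2 ≤ Real.log (1 / lam) := by
      intro lam h0 h1
      exact Real.log_le_log (by norm_num) (hLL lam h0 h1)
    have hlog2 : 0 < Real.log 2 := Real.log_pos (by norm_num)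
    have hp0 : 0 < p := by linarith
    have hpe : 0 ≤ 1 - 1 / p := by
      have : 1 / p ≤ 1 := by
        rw [div_le_one hp0]
        exact hp
      linarith
    obtain ⟨c, hc, hb⟩ := lower hTR p σ hp hσ0 hσ1 ρ hρ hρ0 hρ1
      (fun lam => Real.log (1 / lam) ^ (1 - 1 / p)) ((Real.log 2 ^ (1 - 1 / p))⁻¹) (by
        intro lam h0 h1
        have h2 := hlog lam h0 h1
        refine ⟨Real.rpow_pos_of_pos (by linarith) _, ?_⟩
        exact inv_anti₀ (Real.rpow_pos_of_pos hlog2 _) (Real.rpow_le_rpow hlog2.le h2 hpe)) (by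
        intro hp1 lam h0 h1
        rw [hp1, hσρ, div_one, sub_self, Real.rpow_zero, Real.rpow_zero]
        exact ⟨le_rfl, le_rfl⟩) (by
        intro q hpq
        have hq0 : 0 < q := hpq.symm.pos
        have hqe : 0 < q * (1 + ρ.re - σ) := mul_pos hq0 hd
        have hqp : (1 - 1 / p) * q = 1 := by
          have h2 := hpq.inv_add_inv_eq_one
          have h3 : 1 - 1 / p = q⁻¹ := by
            rw [one_div]
            linarith
          rw [h3, inv_mul_cancel₀ hq0.ne']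
        refine ⟨1 + (1 + 1 / (q * (1 + ρ.re - σ))) / Real.log 2, by positivity, ?_⟩
        intro lam h0 h1
        have h2 := hlog lam h0 h1
        have h3 : 0 ≤ Real.log (1 / lam) := by linarith
        rw [← Real.rpow_mul h3, hqp, Real.rpow_one, hσρ, mul_zero, int_mid0 _ (by
          linarith [hLL lam h0 h1]), Real.rpow_zero]
        have h4 : 1 + 1 / (q * (1 + ρ.re - σ)) ≤
            (1 + 1 / (q * (1 + ρ.re - σ))) / Real.log 2 * Real.log (1 / lam) := by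
          rw [div_mul_eq_mul_div, le_div_iff₀ hlog2]
          exact mul_le_mul_of_nonneg_left h2 (by positivity)
        linarith)
    refine ⟨c, hc, fun lam h0 h1 a ha => ⟨fun h' => absurd h' (by linarith), fun _ => ?_,
      fun h' => absurd h' (by linarith)⟩⟩
    have h2 := hb lam h0 h1 a ha
    have h3 : (Real.log (1 / lam) ^ (1 - 1 / p))⁻¹ = Real.log (1 / lam) ^ (-(1 - 1 / p)) := by
      rw [Real.rpow_neg]
      linarith [hlog lam h0 h1]
    simpa only [h3] using h2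
  · -- case 3
    obtain ⟨c, hc, hb⟩ := lower hTR p σ hp hσ0 hσ1 ρ hρ hρ0 hρ1
      (fun _ => 1) 1 (by
        intro lam h0 h1
        exact ⟨one_pos, by norm_num⟩) (by
        intro _ lam h0 h1
        have h2 := hLL lam h0 h1
        exact ⟨le_rfl, Real.rpow_le_one_of_one_le_of_nonpos (by linarith) (by linarith)⟩) (by
        intro q hpq
        have hq0 : 0 < q := hpq.symm.pos
        have hqd : 0 < q * (ρ.re - σ) := mul_pos hq0 (by linarith)
        have hqe : 0 < q * (1 + ρ.re - σ) := mul_pos hq0 hd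
        have hr : q * (σ - ρ.re) = -(q * (ρ.re - σ)) := by ring
        refine ⟨1 + 1 / (q * (ρ.re - σ)) + 1 / (q * (1 + ρ.re - σ)), by positivity, ?_⟩
        intro lam h0 h1
        have h2 := hLL lam h0 h1
        have h2' : (0 : ℝ) < 1 / lam := by linarith
        rw [int_mid _ _ (by rw [hr]; exact (neg_lt_zero.2 hqd).ne) (by linarith), Real.one_rpow]
        have h3 : (1 / lam) ^ (q * (σ - ρ.re)) ≤ 1 :=
          Real.rpow_le_one_of_one_le_of_nonpos (by linarith) (by linarith)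
        have h3' : 0 ≤ (1 / lam) ^ (q * (σ - ρ.re)) := Real.rpow_nonneg h2'.le _
        have h4 : ((1 / lam) ^ (q * (σ - ρ.re)) - 1) / (q * (σ - ρ.re)) ≤
            1 / (q * (ρ.re - σ)) := by
          rw [hr, div_neg, ← neg_div, neg_sub]
          refine div_le_div_of_nonneg_right ?_ hqd.le
          rw [← hr]
          linarith
        have h5 : (1 / lam) ^ (q * (σ - ρ.re)) / (q * (1 + ρ.re - σ)) ≤
            1 / (q * (1 + ρ.re - σ)) := div_le_div_of_nonneg_right h3 hqe.le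
        linarith)
    refine ⟨c, hc, fun lam h0 h1 a ha => ⟨fun h' => absurd h' (by linarith),
      fun h' => absurd h' (by linarith), fun _ => ?_⟩⟩
    have h2 := hb lam h0 h1 a ha
    simpa using h2

end Pool.Agent.Q65.NB

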