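import Pool.Agent.Q65.NB.Int

/-!
# Project NB of helper120: the pairing with the kernel
-/

set_option autoImplicit false

namespace Pool.Agent.Q65.NB

open Complex MeasureTheory Filter Topology Set
open Pool.Agent.Q120.NB

theorem piece (s : Set ℝ) (hs : MeasurableSet s) (g b : ℝ → ℝ) (hg : Measurable g)
    (h0 : ∀ y ∈ s, 0 ≤ g y) (hb : IntegrableOn b s) (h : ∀ y ∈ s, g y ≤ b y) :
    IntegrableOn g s ∧ ∫ y in s, g y ≤ ∫ y in s, b y := by
  have h1 : IntegrableOn g s := by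
    refine Integrable.mono' hb hg.aestronglyMeasurable ?_
    refine (ae_restrict_iff' hs).2 (Filter.Eventually.of_forall fun y hy => ?_)
    rw [Real.norm_eq_abs, abs_of_nonneg (h0 y hy)]
    exact h y hy
  exact ⟨h1, setIntegral_mono_on h1 hb hs h⟩

/-- the three bounds of the kernel -/
structure KB (β C lam : ℝ) (K : ℝ → ℂ) : Prop where
  meas : Measurable K
  b1 : ∀ y : ℝ, 0 < y → y ≤ 1 → ‖K y‖ ≤ C
  b2 : ∀ y : ℝ, 1 ≤ y → y ≤ 1 / lam → ‖K y‖ ≤ C * y ^ (-β - 1)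
  b3 : ∀ y : ℝ, 1 / lam ≤ y → ‖K y‖ ≤ C * lam⁻¹ * y ^ (-β - 2)

theorem kbd (p q σ β C lam : ℝ) (hpq : p.HolderConjugate q) (hσ0 : 0 < σ) (hσ1 : σ < 1)
    (hβ0 : 0 < β) (hC : 0 < C) (hl0 : 0 < lam) (hl1 : lam ≤ 1) (K : ℝ → ℂ)
    (hK : KB β C lam K) :
    IntegrableOn (fun y : ℝ => ‖K y‖ ^ q * y ^ (q * (σ + 1 / p))) (Ioi 0) ∧
    ∫ y in Ioi (0 : ℝ), ‖K y‖ ^ q * y ^ (q * (σ + 1 / p)) ≤
      C ^ q * (1 + (∫ y in Ioc (1 : ℝ) (1 / lam), y ^ (q * (σ - β) - 1)) +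
        (1 / lam) ^ (q * (σ - β)) / (q * (1 + β - σ))) := by
  have hp0 : 0 < p := hpq.pos
  have hq0 : 0 < q := hpq.symm.pos
  have hpq1 : 1 / p + 1 / q = 1 := by
    have := hpq.inv_add_inv_eq_one
    rw [one_div, one_div]
    exact this
  have hqp : q * (1 / p) = q - 1 := by
    have h1 : 1 / p = 1 - 1 / q := by linarith
    rw [h1, mul_sub, mul_one, mul_one_div, div_self hq0.ne']
  have hL : (1 : ℝ) ≤ 1 / lam := by
    rw [le_div_iff₀ hl0]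
    linarith
  have hL0 : (0 : ℝ) < 1 / lam := by positivity
  have hm : Measurable fun y : ℝ => ‖K y‖ ^ q * y ^ (q * (σ + 1 / p)) :=
    (hK.meas.norm.pow_const q).mul (measurable_id.pow_const _)
  have hd : 0 < 1 + β - σ := by linarith
  -- (0,1]
  obtain ⟨i1, e1⟩ := piece (Ioc 0 1) measurableSet_Ioc
    (fun y : ℝ => ‖K y‖ ^ q * y ^ (q * (σ + 1 / p))) (fun _ => C ^ q) hm
    (fun y hy => mul_nonneg (by positivity) (Real.rpow_nonneg hy.1.le _))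
    (integrableOn_const (by simp)) (by
      intro y hy
      have h1 : ‖K y‖ ^ q ≤ C ^ q :=
        Real.rpow_le_rpow (norm_nonneg _) (hK.b1 y hy.1 hy.2) hq0.le
      have h2 : y ^ (q * (σ + 1 / p)) ≤ 1 := Real.rpow_le_one hy.1.le hy.2 (by positivity)
      have h3 : 0 ≤ C ^ q := by positivity
      calc ‖K y‖ ^ q * y ^ (q * (σ + 1 / p)) ≤ C ^ q * 1 :=
            mul_le_mul h1 h2 (Real.rpow_nonneg hy.1.le _) h3
        _ = C ^ q := mul_one _)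
  -- (1, 1/lam]
  have ib2 : IntegrableOn (fun y : ℝ => C ^ q * y ^ (q * (σ - β) - 1)) (Ioc 1 (1 / lam)) := by
    refine Integrable.const_mul ?_ _
    have h1 : IntervalIntegrable (fun y : ℝ => y ^ (q * (σ - β) - 1)) volume 1 (1 / lam) :=
      intervalIntegral.intervalIntegrable_rpow (Or.inr (by
        rw [uIcc_of_le hL]
        intro h
        linarith [h.1]))
    exact (intervalIntegrable_iff_integrableOn_Ioc_of_le hL).1 h1
  obtain ⟨i2, e2⟩ := piece (Ioc 1 (1 / lam)) measurableSet_Ioc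
    (fun y : ℝ => ‖K y‖ ^ q * y ^ (q * (σ + 1 / p)))
    (fun y => C ^ q * y ^ (q * (σ - β) - 1)) hm
    (fun y hy => mul_nonneg (by positivity) (Real.rpow_nonneg (by linarith [hy.1]) _)) ib2 (by
      intro y hy
      have hy0 : (0 : ℝ) < y := by linarith [hy.1]
      have h1 : ‖K y‖ ^ q ≤ (C * y ^ (-β - 1)) ^ q :=
        Real.rpow_le_rpow (norm_nonneg _) (hK.b2 y hy.1.le hy.2) hq0.le
      have h2 : (C * y ^ (-β - 1)) ^ q * y ^ (q * (σ + 1 / p)) =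
          C ^ q * y ^ (q * (σ - β) - 1) := by
        rw [Real.mul_rpow hC.le (Real.rpow_nonneg hy0.le _), ← Real.rpow_mul hy0.le, mul_assoc,
          ← Real.rpow_add hy0]
        congr 2
        rw [mul_add, hqp]
        ring
      calc ‖K y‖ ^ q * y ^ (q * (σ + 1 / p)) ≤
            (C * y ^ (-β - 1)) ^ q * y ^ (q * (σ + 1 / p)) :=
            mul_le_mul_of_nonneg_right h1 (Real.rpow_nonneg hy0.le _)
        _ = _ := h2)
  -- (1/lam, ∞)
  have hexp : q * (σ - β - 1) - 1 < -1 := by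
    have : 0 < q * (1 + β - σ) := mul_pos hq0 hd
    nlinarith
  have ib3 : IntegrableOn (fun y : ℝ => C ^ q * (1 / lam) ^ q * y ^ (q * (σ - β - 1) - 1))
      (Ioi (1 / lam)) := (integrableOn_Ioi_rpow_of_lt hexp hL0).const_mul _
  obtain ⟨i3, e3⟩ := piece (Ioi (1 / lam)) measurableSet_Ioi
    (fun y : ℝ => ‖K y‖ ^ q * y ^ (q * (σ + 1 / p)))
    (fun y => C ^ q * (1 / lam) ^ q * y ^ (q * (σ - β - 1) - 1)) hm
    (fun y hy => mul_nonneg (by positivity) (Real.rpow_nonneg (hL0.trans hy).le _)) ib3 (by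
      intro y hy
      have hy0 : (0 : ℝ) < y := hL0.trans hy
      have h1 : ‖K y‖ ^ q ≤ (C * lam⁻¹ * y ^ (-β - 2)) ^ q :=
        Real.rpow_le_rpow (norm_nonneg _) (hK.b3 y (le_of_lt hy)) hq0.le
      have h2 : (C * lam⁻¹ * y ^ (-β - 2)) ^ q * y ^ (q * (σ + 1 / p)) =
          C ^ q * (1 / lam) ^ q * y ^ (q * (σ - β - 1) - 1) := by
        have he : (-β - 2) * q + q * (σ + 1 / p) = q * (σ - β - 1) - 1 := by
          rw [mul_add, hqp]
          ring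
        rw [Real.mul_rpow (by positivity) (Real.rpow_nonneg hy0.le _),
          Real.mul_rpow hC.le (by positivity), ← Real.rpow_mul hy0.le, mul_assoc,
          ← Real.rpow_add hy0, he, one_div]
      calc ‖K y‖ ^ q * y ^ (q * (σ + 1 / p)) ≤
            (C * lam⁻¹ * y ^ (-β - 2)) ^ q * y ^ (q * (σ + 1 / p)) :=
            mul_le_mul_of_nonneg_right h1 (Real.rpow_nonneg hy0.le _)
        _ = _ := h2)
  have hun1 : Ioc (0 : ℝ) 1 ∪ Ioc 1 (1 / lam) = Ioc 0 (1 / lam) :=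
    Ioc_union_Ioc_eq_Ioc zero_le_one hL
  have hun2 : Ioc (0 : ℝ) (1 / lam) ∪ Ioi (1 / lam) = Ioi 0 := Ioc_union_Ioi_eq_Ioi hL0.le
  have hdj1 : Disjoint (Ioc (0 : ℝ) 1) (Ioc 1 (1 / lam)) :=
    Set.disjoint_left.2 fun y hy hy' => absurd hy.2 (not_le.2 hy'.1)
  have hdj2 : Disjoint (Ioc (0 : ℝ) (1 / lam)) (Ioi (1 / lam)) :=
    Set.disjoint_left.2 fun y hy hy' => absurd hy.2 (not_le.2 hy')
  have i12 : IntegrableOn (fun y : ℝ => ‖K y‖ ^ q * y ^ (q * (σ + 1 / p)))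
      (Ioc 0 (1 / lam)) := by
    rw [← hun1]
    exact i1.union i2
  refine ⟨by rw [← hun2]; exact i12.union i3, ?_⟩
  rw [← hun2, setIntegral_union hdj2 measurableSet_Ioi i12 i3, ← hun1,
    setIntegral_union hdj1 measurableSet_Ioc i1 i2]
  have f1 : ∫ _y in Ioc (0 : ℝ) 1, C ^ q = C ^ q := by
    rw [setIntegral_const]
    simp
  have f2 : ∫ y in Ioc (1 : ℝ) (1 / lam), C ^ q * y ^ (q * (σ - β) - 1) =
      C ^ q * ∫ y in Ioc (1 : ℝ) (1 / lam), y ^ (q * (σ - β) - 1) := integral_const_mul _ _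
  have f3 : ∫ y in Ioi (1 / lam), C ^ q * (1 / lam) ^ q * y ^ (q * (σ - β - 1) - 1) =
      C ^ q * ((1 / lam) ^ (q * (σ - β)) / (q * (1 + β - σ))) := by
    rw [integral_const_mul, integral_Ioi_rpow_of_lt hexp hL0]
    have h1 : q * (σ - β - 1) - 1 + 1 = q * (σ - β) - q := by ring
    rw [h1, Real.rpow_sub hL0]
    have h2 : q * (σ - β) - q = -(q * (1 + β - σ)) := by ring
    rw [h2]
    have h3 : (1 / lam) ^ q ≠ 0 := (Real.rpow_pos_of_pos hL0 _).ne'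
    have h4 : q * (1 + β - σ) ≠ 0 := (mul_pos hq0 hd).ne'
    rw [neg_div_neg_eq]
    field_simp
  rw [f1] at e1
  rw [f2] at e2
  rw [f3] at e3
  linarith

theorem hoel (p q σ : ℝ) (hpq : p.HolderConjugate q) (u K : ℝ → ℂ) (hu : Measurable u)
    (hK : Measurable K)
    (hui : IntegrableOn (fun y : ℝ => ‖u y‖ ^ p * y ^ (-(p * σ) - 1)) (Ioi 0))
    (hKi : IntegrableOn (fun y : ℝ => ‖K y‖ ^ q * y ^ (q * (σ + 1 / p))) (Ioi 0)) :
    ‖∫ y in Ioi (0 : ℝ), u y * K y‖ ≤ ny p σ u *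
      (∫ y in Ioi (0 : ℝ), ‖K y‖ ^ q * y ^ (q * (σ + 1 / p))) ^ (1 / q) := by
  have hp0 : 0 < p := hpq.pos
  have hq0 : 0 < q := hpq.symm.pos
  have hfe : ∀ y : ℝ, 0 < y → (‖u y‖ * y ^ (-σ - 1 / p)) ^ p =
      ‖u y‖ ^ p * y ^ (-(p * σ) - 1) := by
    intro y hy
    have he : (-σ - 1 / p) * p = -(p * σ) - 1 := by
      field_simp
    rw [Real.mul_rpow (norm_nonneg _) (Real.rpow_nonneg hy.le _), ← Real.rpow_mul hy.le, he]
  have hge : ∀ y : ℝ, 0 < y → (‖K y‖ * y ^ (σ + 1 / p)) ^ q =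
      ‖K y‖ ^ q * y ^ (q * (σ + 1 / p)) := by
    intro y hy
    rw [Real.mul_rpow (norm_nonneg _) (Real.rpow_nonneg hy.le _), ← Real.rpow_mul hy.le]
    congr 2
    ring
  have hfm : Measurable fun y : ℝ => ‖u y‖ * y ^ (-σ - 1 / p) :=
    hu.norm.mul (measurable_id.pow_const _)
  have hgm : Measurable fun y : ℝ => ‖K y‖ * y ^ (σ + 1 / p) :=
    hK.norm.mul (measurable_id.pow_const _)
  have hf0 : ∀ y ∈ Ioi (0 : ℝ), 0 ≤ ‖u y‖ * y ^ (-σ - 1 / p) := fun y hy =>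
    mul_nonneg (norm_nonneg _) (Real.rpow_nonneg (le_of_lt hy) _)
  have hg0 : ∀ y ∈ Ioi (0 : ℝ), 0 ≤ ‖K y‖ * y ^ (σ + 1 / p) := fun y hy =>
    mul_nonneg (norm_nonneg _) (Real.rpow_nonneg (le_of_lt hy) _)
  have hfL : MemLp (fun y : ℝ => ‖u y‖ * y ^ (-σ - 1 / p)) (ENNReal.ofReal p)
      (volume.restrict (Ioi 0)) := by
    refine (integrable_norm_rpow_iff hfm.aestronglyMeasurable (by simpa using hp0)
      ENNReal.ofReal_ne_top).1 ?_
    rw [ENNReal.toReal_ofReal hp0.le]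
    refine hui.congr_fun (fun y hy => ?_) measurableSet_Ioi
    show ‖u y‖ ^ p * y ^ (-(p * σ) - 1) = ‖‖u y‖ * y ^ (-σ - 1 / p)‖ ^ p
    rw [Real.norm_eq_abs, abs_of_nonneg (hf0 y hy), hfe y hy]
  have hgL : MemLp (fun y : ℝ => ‖K y‖ * y ^ (σ + 1 / p)) (ENNReal.ofReal q)
      (volume.restrict (Ioi 0)) := by
    refine (integrable_norm_rpow_iff hgm.aestronglyMeasurable (by simpa using hq0)
      ENNReal.ofReal_ne_top).1 ?_
    rw [ENNReal.toReal_ofReal hq0.le]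
    refine hKi.congr_fun (fun y hy => ?_) measurableSet_Ioi
    show ‖K y‖ ^ q * y ^ (q * (σ + 1 / p)) = ‖‖K y‖ * y ^ (σ + 1 / p)‖ ^ q
    rw [Real.norm_eq_abs, abs_of_nonneg (hg0 y hy), hge y hy]
  have h1 := integral_mul_le_Lp_mul_Lq_of_nonneg (μ := volume.restrict (Ioi (0 : ℝ))) hpq
    ((ae_restrict_iff' measurableSet_Ioi).2 (Filter.Eventually.of_forall hf0))
    ((ae_restrict_iff' measurableSet_Ioi).2 (Filter.Eventually.of_forall hg0)) hfL hgL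
  have h2 : ∫ y in Ioi (0 : ℝ), (‖u y‖ * y ^ (-σ - 1 / p)) * (‖K y‖ * y ^ (σ + 1 / p)) =
      ∫ y in Ioi (0 : ℝ), ‖u y * K y‖ := by
    refine setIntegral_congr_fun measurableSet_Ioi fun y hy => ?_
    have hy0 : (0 : ℝ) < y := hy
    have h3 : y ^ (-σ - 1 / p) * y ^ (σ + 1 / p) = 1 := by
      rw [← Real.rpow_add hy0]
      have : -σ - 1 / p + (σ + 1 / p) = 0 := by ring
      rw [this, Real.rpow_zero]
    show (‖u y‖ * y ^ (-σ - 1 / p)) * (‖K y‖ * y ^ (σ + 1 / p)) = ‖u y * K y‖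
    rw [norm_mul]
    calc (‖u y‖ * y ^ (-σ - 1 / p)) * (‖K y‖ * y ^ (σ + 1 / p)) =
          ‖u y‖ * ‖K y‖ * (y ^ (-σ - 1 / p) * y ^ (σ + 1 / p)) := by ring
      _ = _ := by rw [h3, mul_one]
  have h4 : ∫ y in Ioi (0 : ℝ), (‖u y‖ * y ^ (-σ - 1 / p)) ^ p =
      ∫ y in Ioi (0 : ℝ), ‖u y‖ ^ p * y ^ (-(p * σ) - 1) :=
    setIntegral_congr_fun measurableSet_Ioi fun y hy => hfe y hy
  have h5 : ∫ y in Ioi (0 : ℝ), (‖K y‖ * y ^ (σ + 1 / p)) ^ q =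
      ∫ y in Ioi (0 : ℝ), ‖K y‖ ^ q * y ^ (q * (σ + 1 / p)) :=
    setIntegral_congr_fun measurableSet_Ioi fun y hy => hge y hy
  rw [h2, h4, h5] at h1
  exact (norm_integral_le_integral_norm _).trans h1

end Pool.Agent.Q65.NB

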